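import Mathlib

/-! Pebble motion: the counting argument. `y t i` is the (signed) distance of the pebble `i` from
the branch vertex after `t` moves. At most `2 h` pebbles are at distance `< h` at any time, and every
pair of pebbles has to be at distance `0` simultaneously at some time. -/

set_option autoImplicit false

namespace Pool.Agent.R146.Peb

open Finset

section core

variable {n m : ℕ} (y : ℕ → Fin n → ℤ)

/-- the pebbles at distance less than `h` after `t` moves -/
def S (h : ℕ) (t : ℕ) : Finset (Fin n) := univ.filter fun i => |y t i| < (h : ℤ)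

/-- the pairs which have been at distance less than `h` simultaneously, up to time `t` -/
def U (h : ℕ) (t : ℕ) : Finset (Finset (Fin n)) :=
  (powersetCard 2 univ).filter fun s => ∃ t' ≤ t, s ⊆ S y h t'

/-- some pebble enters the zone at distance less than `h` -/
def Ent (h : ℕ) (t : ℕ) : Prop := ∃ i, (h : ℤ) ≤ |y t i| ∧ |y (t + 1) i| < (h : ℤ)

open Classical in
/-- the times of entries -/
noncomputable def E (h : ℕ) (t : ℕ) : Finset ℕ := (range t).filter fun t => Ent y h t

open Classical in
theorem card_U_le (hstep : ∀ t < m, ∃ i, (∀ j, j ≠ i → y (t + 1) j = y t j) ∧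
      |y (t + 1) i - y t i| ≤ 1) (h : ℕ) (hh : 1 ≤ h)
    (hcap : ∀ t ≤ m, (S y h t).card ≤ 2 * h) :
    ∀ t ≤ m, (U y h t).card ≤ (U y h 0).card + (2 * h - 1) * (E y h t).card := by
  intro t
  induction t with
  | zero => intro _; simp
  | succ t ih =>
    intro ht
    have ih' := ih (by omega)
    by_cases hE : Ent y h t
    · obtain ⟨i, hi1, hi2⟩ := hE
      obtain ⟨k, hk1, -⟩ := hstep t (by omega)
      have hik : i = k := by
        by_contra hne
        have := hk1 i hne
        rw [this] at hi2
        omega
      subst hik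
      have hsub : U y h (t + 1) ⊆ U y h t ∪ ((S y h (t + 1)).erase i).image (fun j => {i, j}) := by
        intro s hs
        rw [U, mem_filter] at hs
        obtain ⟨hs1, t', ht', hst'⟩ := hs
        rw [mem_union]
        rcases Nat.lt_or_ge t' (t + 1) with hlt | hge
        · left
          rw [U, mem_filter]
          exact ⟨hs1, t', by omega, hst'⟩
        · have : t' = t + 1 := by omega
          subst this
          by_cases his : i ∈ s
          · right
            rw [mem_powersetCard] at hs1
            obtain ⟨a, ha⟩ : ∃ a, s.erase i = {a} := by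
              rw [← card_eq_one, card_erase_of_mem his]
              omega
            have hs2 : s = {i, a} := by
              rw [← insert_erase his, ha]
            have hai : a ∈ s.erase i := by rw [ha]; exact mem_singleton_self a
            rw [mem_image]
            refine ⟨a, ?_, hs2.symm⟩
            rw [mem_erase] at hai ⊢
            exact ⟨hai.1, hst' hai.2⟩
          · left
            rw [U, mem_filter]
            refine ⟨hs1, t, le_rfl, ?_⟩
            intro j hj
            have hj1 := hst' hj
            rw [S, mem_filter] at hj1 ⊢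
            refine ⟨mem_univ _, ?_⟩
            have hji : j ≠ i := fun h => his (h ▸ hj)
            rw [← hk1 j hji]
            exact hj1.2
      have hiS : i ∈ S y h (t + 1) := by
        rw [S, mem_filter]
        exact ⟨mem_univ _, hi2⟩
      have hc1 : (((S y h (t + 1)).erase i).image (fun j => ({i, j} : Finset (Fin n)))).card ≤
          2 * h - 1 := by
        refine card_image_le.trans ?_
        rw [card_erase_of_mem hiS]
        have := hcap (t + 1) ht
        omega
      have hc2 := (card_le_card hsub).trans (card_union_le _ _)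
      have hE1 : (E y h (t + 1)).card = (E y h t).card + 1 := by
        rw [E, range_add_one, filter_insert, if_pos ⟨i, hi1, hi2⟩, card_insert_of_notMem]
        · rfl
        · intro hmem
          rw [mem_filter, mem_range] at hmem
          omega
      rw [hE1, mul_add, mul_one]
      omega
    · have hsub : U y h (t + 1) ⊆ U y h t := by
        intro s hs
        rw [U, mem_filter] at hs ⊢
        obtain ⟨hs1, t', ht', hst'⟩ := hs
        refine ⟨hs1, ?_⟩
        rcases Nat.lt_or_ge t' (t + 1) with hlt | hge
        · exact ⟨t', by omega, hst'⟩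
        · have : t' = t + 1 := by omega
          subst this
          refine ⟨t, le_rfl, ?_⟩
          intro j hj
          have hj1 := hst' hj
          rw [S, mem_filter] at hj1 ⊢
          refine ⟨mem_univ _, ?_⟩
          by_contra hcon
          push Not at hcon
          exact hE ⟨j, hcon, hj1.2⟩
      have hE1 : (E y h (t + 1)).card = (E y h t).card := by
        rw [E, range_add_one, filter_insert, if_neg hE]
        rfl
      rw [hE1]
      exact (card_le_card hsub).trans ih'

open Classical in
theorem card_E_ge (hstep : ∀ t < m, ∃ i, (∀ j, j ≠ i → y (t + 1) j = y t j) ∧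
      |y (t + 1) i - y t i| ≤ 1) (h : ℕ) (hh : 1 ≤ h)
    (hcap : ∀ t ≤ m, (S y h t).card ≤ 2 * h)
    (hpair : ∀ i j, i < j → ∃ t ≤ m, y t i = 0 ∧ y t j = 0)
    (h0 : ∀ i, y 0 i = (i : ℤ) + 1) :
    n.choose 2 ≤ (h - 1) ^ 2 + (2 * h - 1) * (E y h m).card := by
  have h1 := card_U_le y hstep h hh hcap m le_rfl
  have h2 : U y h m = powersetCard 2 univ := by
    rw [U, filter_true_of_mem]
    intro s hs
    rw [mem_powersetCard] at hs
    obtain ⟨a, b, hab, hs'⟩ := card_eq_two.1 hs.2
    rcases lt_or_gt_of_ne hab with hlt | hlt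
    · obtain ⟨t, ht, ha, hb⟩ := hpair a b hlt
      refine ⟨t, ht, ?_⟩
      rw [hs']
      intro c hc
      rw [mem_insert, mem_singleton] at hc
      rw [S, mem_filter]
      refine ⟨mem_univ _, ?_⟩
      rcases hc with rfl | rfl
      · rw [ha, abs_zero]; exact_mod_cast hh
      · rw [hb, abs_zero]; exact_mod_cast hh
    · obtain ⟨t, ht, hb, ha⟩ := hpair b a hlt
      refine ⟨t, ht, ?_⟩
      rw [hs']
      intro c hc
      rw [mem_insert, mem_singleton] at hc
      rw [S, mem_filter]
      refine ⟨mem_univ _, ?_⟩
      rcases hc with rfl | rfl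
      · rw [ha, abs_zero]; exact_mod_cast hh
      · rw [hb, abs_zero]; exact_mod_cast hh
  have h3 : (U y h 0).card ≤ (h - 1) ^ 2 := by
    have hsub : U y h 0 ⊆ powersetCard 2 (S y h 0) := by
      intro s hs
      rw [U, mem_filter, mem_powersetCard] at hs
      obtain ⟨hs1, t', ht', hst'⟩ := hs
      have : t' = 0 := by omega
      subst this
      rw [mem_powersetCard]
      exact ⟨hst', hs1.2⟩
    have hS : (S y h 0).card ≤ h - 1 := by
      have hsub2 : (S y h 0).image (fun i : Fin n => (i : ℕ)) ⊆ range (h - 1) := by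
        intro k hk
        rw [mem_image] at hk
        obtain ⟨i, hi, rfl⟩ := hk
        rw [S, mem_filter, h0 i] at hi
        rw [mem_range]
        have h4 : |((i : ℕ) : ℤ) + 1| = (i : ℤ) + 1 := abs_of_nonneg (by positivity)
        rw [h4] at hi
        have := hi.2
        omega
      have := card_le_card hsub2
      rw [card_image_of_injective _ Fin.val_injective, card_range] at this
      exact this
    calc (U y h 0).card ≤ (powersetCard 2 (S y h 0)).card := card_le_card hsub
      _ = (S y h 0).card.choose 2 := card_powersetCard _ _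
      _ ≤ (h - 1).choose 2 := Nat.choose_le_choose 2 hS
      _ ≤ (h - 1) ^ 2 := by
        rw [Nat.choose_two_right, sq]
        exact (Nat.div_le_self _ _).trans (Nat.mul_le_mul_left _ (Nat.sub_le _ _))
  rw [h2, card_powersetCard, card_univ, Fintype.card_fin] at h1
  omega

open Classical in
theorem sum_E_le (hstep : ∀ t < m, ∃ i, (∀ j, j ≠ i → y (t + 1) j = y t j) ∧
      |y (t + 1) i - y t i| ≤ 1) (H : ℕ) :
    ∑ h ∈ range H, (E y (h + 1) m).card ≤ m := by
  have hd : ((range H : Finset ℕ) : Set ℕ).PairwiseDisjoint (fun h => E y (h + 1) m) := by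
    intro h _ h' _ hne
    rw [Function.onFun, Finset.disjoint_left]
    intro t ht ht'
    rw [E, mem_filter, mem_range] at ht ht'
    obtain ⟨htm, i, hi1, hi2⟩ := ht
    obtain ⟨-, i', hi1', hi2'⟩ := ht'
    obtain ⟨k, hk1, hk2⟩ := hstep t htm
    have e1 : i = k := by
      by_contra hn
      rw [hk1 i hn] at hi2
      omega
    have e2 : i' = k := by
      by_contra hn
      rw [hk1 i' hn] at hi2'
      omega
    subst e1
    subst e2
    apply hne
    have h5 : |y t i'| ≤ |y (t + 1) i'| + 1 := by
      have := abs_sub_abs_le_abs_sub (y t i') (y (t + 1) i')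
      rw [abs_sub_comm] at this
      linarith
    push_cast at hi1 hi2 hi1' hi2'
    omega
  rw [← card_biUnion hd]
  have hsub : (range H).biUnion (fun h => E y (h + 1) m) ⊆ range m := by
    intro t ht
    rw [mem_biUnion] at ht
    obtain ⟨h, -, ht⟩ := ht
    rw [E, mem_filter] at ht
    exact ht.1
  have := card_le_card hsub
  rwa [card_range] at this

theorem core (hn : 2 ≤ n) (hstep : ∀ t < m, ∃ i, (∀ j, j ≠ i → y (t + 1) j = y t j) ∧
      |y (t + 1) i - y t i| ≤ 1)
    (hcap : ∀ h : ℕ, 1 ≤ h → ∀ t ≤ m, (S y h t).card ≤ 2 * h)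
    (hpair : ∀ i j, i < j → ∃ t ≤ m, y t i = 0 ∧ y t j = 0)
    (h0 : ∀ i, y 0 i = (i : ℤ) + 1) :
    (n : ℝ) ^ 2 / 8 * Real.log (n / 2) ≤ m := by
  set H : ℕ := n / 2 with hH
  have key : ∀ h ∈ range H, (n : ℝ) ^ 2 / 8 * ((h : ℝ) + 1)⁻¹ ≤ ((E y (h + 1) m).card : ℝ) := by
    intro h hh
    rw [mem_range] at hh
    have h1 := card_E_ge y hstep (h + 1) (by omega) (hcap (h + 1) (by omega)) hpair h0
    have h2 : (n.choose 2 : ℝ) ≤ (h : ℝ) ^ 2 + (2 * h + 1) * ((E y (h + 1) m).card : ℝ) := by
      have h3 : 2 * (h + 1) - 1 = 2 * h + 1 := by omega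
      have h4 : h + 1 - 1 = h := by omega
      rw [h3, h4] at h1
      exact_mod_cast h1
    rw [Nat.cast_choose_two] at h2
    have h5 : (h : ℝ) + 1 ≤ n / 2 := by
      have : 2 * (h + 1) ≤ n := by omega
      have h6 : (2 : ℝ) * (h + 1) ≤ n := by exact_mod_cast this
      linarith
    have hh0 : (0 : ℝ) ≤ h := Nat.cast_nonneg h
    have hc0 : (0 : ℝ) ≤ ((E y (h + 1) m).card : ℝ) := Nat.cast_nonneg _
    rw [← div_eq_mul_inv, div_div, div_le_iff₀ (by positivity)]
    nlinarith
  have h1 : ∑ h ∈ range H, (n : ℝ) ^ 2 / 8 * ((h : ℝ) + 1)⁻¹ ≤ (m : ℝ) := by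
    calc ∑ h ∈ range H, (n : ℝ) ^ 2 / 8 * ((h : ℝ) + 1)⁻¹
        ≤ ∑ h ∈ range H, ((E y (h + 1) m).card : ℝ) := sum_le_sum key
      _ = ((∑ h ∈ range H, (E y (h + 1) m).card : ℕ) : ℝ) := by push_cast; rfl
      _ ≤ m := by exact_mod_cast sum_E_le y hstep H
  rw [← mul_sum] at h1
  have h2 : Real.log (n / 2) ≤ ∑ h ∈ range H, ((h : ℝ) + 1)⁻¹ := by
    have h3 := log_add_one_le_harmonic H
    have h4 : ((harmonic H : ℚ) : ℝ) = ∑ h ∈ range H, ((h : ℝ) + 1)⁻¹ := by
      rw [harmonic]
      push_cast
      rfl
    rw [h4] at h3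
    refine le_trans (Real.log_le_log ?_ ?_) h3
    · have : (2 : ℝ) ≤ n := by exact_mod_cast hn
      linarith
    · have : n ≤ 2 * H + 1 := by omega
      have h5 : (n : ℝ) ≤ 2 * H + 1 := by exact_mod_cast this
      push_cast
      linarith
  refine le_trans ?_ h1
  exact mul_le_mul_of_nonneg_left h2 (by positivity)

end core

end Pool.Agent.R146.Peb
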