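import Mathlib

/-! Pebble motion on trees: definitions. -/

set_option autoImplicit false

namespace Pool.Agent.R146.Peb

open scoped Classical

variable {V : Type*} {n : ℕ}

/-- A configuration of the pebbles `1, …, n` on the vertices: `f v` is the pebble at `v`, and
`f v = 0` if `v` is unoccupied; each pebble is at exactly one vertex. -/
def IsConfig (f : V → Fin (n + 1)) : Prop := ∀ i : Fin (n + 1), i ≠ 0 → ∃! v, f v = i

/-- A move shifts one pebble from its vertex `u` to an adjacent unoccupied vertex `v`. -/
def Move (G : SimpleGraph V) (f f' : V → Fin (n + 1)) : Prop :=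
  ∃ u v, G.Adj u v ∧ f u ≠ 0 ∧ f v = 0 ∧
    f' = Function.update (Function.update f u 0) v (f u)

/-- A sequence of exactly `m` moves transforms `f` into `g`. -/
def Solves (G : SimpleGraph V) (m : ℕ) (f g : V → Fin (n + 1)) : Prop :=
  ∃ c : ℕ → V → Fin (n + 1), c 0 = f ∧ c m = g ∧ ∀ t < m, Move G (c t) (c (t + 1))

/-- The minimum number of moves in a sequence transforming `f` into `g` (used only when there is
such a sequence). -/
noncomputable def ell (G : SimpleGraph V) (f g : V → Fin (n + 1)) : ℕ :=
  sInf {m | Solves G m f g}

/-- The deletion of `v` disconnects the graph. -/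
def IsCutVertex (G : SimpleGraph V) (v : V) : Prop := ¬ (G.induce ({v}ᶜ : Set V)).Preconnected

/-- A path is an isthmus if each of its edges is a bridge, each of its vertices is a cut vertex and
each of its inner vertices has degree 2. Its number of vertices is `w.support.length`. -/
def IsIsthmus (G : SimpleGraph V) {u v : V} (w : G.Walk u v) : Prop :=
  w.IsPath ∧ (∀ e ∈ w.edges, G.IsBridge e) ∧ (∀ x ∈ w.support, IsCutVertex G x) ∧
    ∀ x ∈ w.support, x ≠ u → x ≠ v → (G.neighborSet x).ncard = 2

/-- An instance: a tree with `N = card V` vertices, `n < N` pebbles, two configurations, and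
`n + k < N` where `k` is the number of vertices of a longest isthmus. -/
structure IsInstance [Fintype V] (G : SimpleGraph V) (f g : V → Fin (n + 1)) : Prop where
  tree : G.IsTree
  lt : n < Fintype.card V
  init : IsConfig f
  target : IsConfig g
  isth : ∀ (u v : V) (w : G.Walk u v), IsIsthmus G w → n + w.support.length < Fintype.card V

end Pool.Agent.R146.Peb
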