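import Pool.Agent.R146.Peb.Defs

/-! The tree: a path `-M, …, L` and one more leaf (the integer `L + 1`) at the vertex `0`. -/

set_option autoImplicit false

namespace Pool.Agent.R146.Peb

open scoped Classical
open Finset

/-- the vertices -/
abbrev VV (L M : ℕ) : Type := ↥(Finset.Icc (-(M : ℤ)) ((L : ℤ) + 1))

/-- the adjacency of the tree in terms of integers -/
def AdjZ (L : ℕ) (a b : ℤ) : Prop :=
  (a ≤ L ∧ b ≤ L ∧ (a + 1 = b ∨ b + 1 = a)) ∨ (a = 0 ∧ b = L + 1) ∨ (a = L + 1 ∧ b = 0)

/-- the tree -/
def TG (L M : ℕ) : SimpleGraph (VV L M) where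
  Adj a b := AdjZ L a.1 b.1
  symm := ⟨by
    intro a b h
    rcases h with ⟨h1, h2, h3⟩ | ⟨h1, h2⟩ | ⟨h1, h2⟩
    · exact Or.inl ⟨h2, h1, h3.symm⟩
    · exact Or.inr (Or.inr ⟨h2, h1⟩)
    · exact Or.inr (Or.inl ⟨h2, h1⟩)⟩
  loopless := ⟨by
    intro a h
    rcases h with ⟨h1, h2, h3⟩ | ⟨h1, h2⟩ | ⟨h1, h2⟩ <;> omega⟩

theorem adj_iff {L M : ℕ} (a b : VV L M) : (TG L M).Adj a b ↔ AdjZ L a.1 b.1 := Iff.rfl

/-- the vertex with a given integer -/
def vx (L M : ℕ) (x : ℤ) (h : -(M : ℤ) ≤ x ∧ x ≤ L + 1) : VV L M := ⟨x, Finset.mem_Icc.2 h⟩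

theorem card_VV (L M : ℕ) : Fintype.card (VV L M) = L + M + 2 := by
  rw [Fintype.card_coe, Int.card_Icc]
  omega

theorem prop {L M : ℕ} (a : VV L M) : -(M : ℤ) ≤ a.1 ∧ a.1 ≤ L + 1 := Finset.mem_Icc.1 a.2

theorem reach_zero (L M : ℕ) : ∀ (k : ℕ) (a : VV L M), a.1.natAbs = k →
    (TG L M).Reachable a (vx L M 0 (by omega)) := by
  intro k
  induction k with
  | zero =>
    intro a ha
    have : a = vx L M 0 (by omega) := Subtype.ext (by simpa [vx] using ha)
    rw [this]
  | succ k ih =>
    intro a ha
    have hp := prop a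
    by_cases h1 : a.1 = L + 1
    · refine SimpleGraph.Adj.reachable ?_
      rw [adj_iff]
      exact Or.inr (Or.inr ⟨h1, rfl⟩)
    · rcases lt_trichotomy a.1 0 with h2 | h2 | h2
      · have hadj : (TG L M).Adj a (vx L M (a.1 + 1) (by omega)) := by
          rw [adj_iff]
          exact Or.inl ⟨by omega, by simp only [vx]; omega, Or.inl rfl⟩
        exact hadj.reachable.trans (ih _ (by simp only [vx]; omega))
      · omega
      · have hadj : (TG L M).Adj a (vx L M (a.1 - 1) (by omega)) := by
          rw [adj_iff]
          exact Or.inl ⟨by omega, by simp only [vx]; omega, Or.inr (by simp only [vx]; omega)⟩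
        exact hadj.reachable.trans (ih _ (by simp only [vx]; omega))

theorem conn (L M : ℕ) : (TG L M).Connected := by
  have : Nonempty (VV L M) := ⟨vx L M 0 (by omega)⟩
  refine ⟨fun a b => ?_⟩
  exact (reach_zero L M _ a rfl).trans (reach_zero L M _ b rfl).symm

/-- the parent -/
def par (L M : ℕ) (a : VV L M) : VV L M :=
  if h1 : a.1 = L + 1 then vx L M 0 (by omega)
  else if h2 : 0 < a.1 then vx L M (a.1 - 1) (by have := prop a; omega)
  else if h3 : a.1 < 0 then vx L M (a.1 + 1) (by have := prop a; omega)
  else a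

theorem isTree (L M : ℕ) : (TG L M).IsTree := by
  rw [SimpleGraph.isTree_iff_connected_and_card]
  refine ⟨conn L M, ?_⟩
  have h1 := (conn L M).card_vert_le_card_edgeSet_add_one
  have h2 : (TG L M).edgeSet ⊆
      ((univ.erase (vx L M 0 (by omega))).image (fun v => s(v, par L M v)) : Finset _) := by
    intro e he
    induction e using Sym2.ind with
    | _ a b =>
      rw [SimpleGraph.mem_edgeSet, adj_iff] at he
      rw [Finset.mem_coe, mem_image]
      have ha := prop a
      have hb := prop b
      -- the endpoint which is not the parent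
      have key : (a.1 ≠ 0 ∧ (par L M a).1 = b.1) ∨ (b.1 ≠ 0 ∧ (par L M b).1 = a.1) := by
        rcases he with ⟨h1, h2, h3⟩ | ⟨h1, h2⟩ | ⟨h1, h2⟩
        · rcases h3 with h3 | h3
          · by_cases h4 : 0 < b.1
            · right
              refine ⟨by omega, ?_⟩
              rw [par, dif_neg (by omega), dif_pos h4]
              simp only [vx]; omega
            · left
              refine ⟨by omega, ?_⟩
              rw [par, dif_neg (by omega), dif_neg (by omega), dif_pos (by omega)]
              simp only [vx]; omega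
          · by_cases h4 : 0 < a.1
            · left
              refine ⟨by omega, ?_⟩
              rw [par, dif_neg (by omega), dif_pos h4]
              simp only [vx]; omega
            · right
              refine ⟨by omega, ?_⟩
              rw [par, dif_neg (by omega), dif_neg (by omega), dif_pos (by omega)]
              simp only [vx]; omega
        · right
          refine ⟨by omega, ?_⟩
          rw [par, dif_pos h2]
          simp only [vx]; omega
        · left
          refine ⟨by omega, ?_⟩
          rw [par, dif_pos h1]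
          simp only [vx]; omega
      rcases key with ⟨h1, h2⟩ | ⟨h1, h2⟩
      · refine ⟨a, ?_, ?_⟩
        · rw [mem_erase]
          exact ⟨fun h => h1 (by rw [h]; rfl), mem_univ _⟩
        · rw [show par L M a = b from Subtype.ext h2]
      · refine ⟨b, ?_, ?_⟩
        · rw [mem_erase]
          exact ⟨fun h => h1 (by rw [h]; rfl), mem_univ _⟩
        · rw [show par L M b = a from Subtype.ext h2, Sym2.eq_swap]
  have h3 : Nat.card (TG L M).edgeSet ≤ Fintype.card (VV L M) - 1 := by
    have h4 := Set.ncard_le_ncard h2 (Finset.finite_toSet _)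
    rw [Set.ncard_coe_finset] at h4
    have h5 : ((univ.erase (vx L M 0 (by omega))).image (fun v => s(v, par L M v))).card ≤
        Fintype.card (VV L M) - 1 := by
      refine card_image_le.trans ?_
      rw [card_erase_of_mem (mem_univ _), card_univ]
    exact (h4.trans h5)
  rw [Nat.card_eq_fintype_card (α := VV L M)] at h1 ⊢
  have := card_VV L M
  omega

/-- the legs of the tree -/
def side (L : ℕ) (x : ℤ) : ℕ := if x = L + 1 then 3 else if 0 < x then 1 else if x < 0 then 2 else 0

theorem side_adj {L M : ℕ} (a b : VV L M) (h : (TG L M).Adj a b) (ha : a.1 ≠ 0) (hb : b.1 ≠ 0) :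
    side L a.1 = side L b.1 := by
  rw [adj_iff] at h
  rcases h with ⟨h1, h2, h3⟩ | ⟨h1, h2⟩ | ⟨h1, h2⟩
  · simp only [side]
    split_ifs <;> omega
  · exact absurd h1 ha
  · exact absurd h2 hb

theorem walk_side {L M : ℕ} {u v : VV L M} (w : (TG L M).Walk u v)
    (h0 : ∀ x ∈ w.support, x.1 ≠ 0) : ∀ x ∈ w.support, side L x.1 = side L u.1 := by
  induction w with
  | nil =>
    intro x hx
    rw [SimpleGraph.Walk.support_nil, List.mem_singleton] at hx
    rw [hx]
  | @cons a b c hadj w ih =>
    intro x hx
    rw [SimpleGraph.Walk.support_cons, List.mem_cons] at hx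
    rcases hx with rfl | hx
    · rfl
    · have h1 := ih (fun y hy => h0 y (by
        rw [SimpleGraph.Walk.support_cons]; exact List.mem_cons_of_mem _ hy)) x hx
      rw [h1]
      refine (side_adj _ _ hadj (h0 _ ?_) (h0 _ ?_)).symm
      · exact SimpleGraph.Walk.start_mem_support _
      · rw [SimpleGraph.Walk.support_cons]
        exact List.mem_cons_of_mem _ (SimpleGraph.Walk.start_mem_support _)

theorem card_side {L M : ℕ} (hLM : L ≤ M) (hL : 1 ≤ L) (s : ℕ) (hs : s ≠ 0) :
    (univ.filter fun x : VV L M => side L x.1 = s).card ≤ M := by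
  have h1 : (univ.filter fun x : VV L M => side L x.1 = s).card =
      ((univ.filter fun x : VV L M => side L x.1 = s).image (fun x => x.1)).card :=
    (card_image_of_injective _ Subtype.val_injective).symm
  rw [h1]
  by_cases h3 : s = 3
  · have hsub : ((univ.filter fun x : VV L M => side L x.1 = s).image (fun x => x.1)) ⊆
        {(L : ℤ) + 1} := by
      intro z hz
      rw [mem_image] at hz
      obtain ⟨x, hx, rfl⟩ := hz
      rw [mem_filter, side] at hx
      rw [mem_singleton]
      by_contra hne
      have := hx.2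
      rw [if_neg hne] at this
      split_ifs at this <;> omega
    refine (card_le_card hsub).trans ?_
    rw [card_singleton]
    omega
  by_cases h2 : s = 2
  · have hsub : ((univ.filter fun x : VV L M => side L x.1 = s).image (fun x => x.1)) ⊆
        Finset.Icc (-(M : ℤ)) (-1) := by
      intro z hz
      rw [mem_image] at hz
      obtain ⟨x, hx, rfl⟩ := hz
      have hp := prop x
      rw [mem_filter, side] at hx
      rw [Finset.mem_Icc]
      have := hx.2
      split_ifs at this <;> omega
    refine (card_le_card hsub).trans ?_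
    rw [Int.card_Icc]
    omega
  · have hsub : ((univ.filter fun x : VV L M => side L x.1 = s).image (fun x => x.1)) ⊆
        Finset.Icc (1 : ℤ) L := by
      intro z hz
      rw [mem_image] at hz
      obtain ⟨x, hx, rfl⟩ := hz
      have hp := prop x
      rw [mem_filter, side] at hx
      rw [Finset.mem_Icc]
      have := hx.2
      split_ifs at this <;> omega
    refine (card_le_card hsub).trans ?_
    rw [Int.card_Icc]
    omega

theorem path_le {L M : ℕ} (hLM : L ≤ M) (hL : 1 ≤ L) {u v : VV L M} (w : (TG L M).Walk u v)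
    (hw : w.IsPath) (h0 : ∀ x ∈ w.support, x.1 ≠ 0) : w.support.length ≤ M := by
  rw [← List.toFinset_card_of_nodup hw.support_nodup]
  refine le_trans (card_le_card ?_) (card_side hLM hL (side L u.1) ?_)
  · intro x hx
    rw [List.mem_toFinset] at hx
    rw [mem_filter]
    exact ⟨mem_univ _, walk_side w h0 x hx⟩
  · have := h0 u (SimpleGraph.Walk.start_mem_support _)
    simp only [side]
    split_ifs <;> omega

theorem start_le {L M : ℕ} (hLM : L ≤ M) (hL : 1 ≤ L) {u v : VV L M} (w : (TG L M).Walk u v)
    (hw : w.IsPath) (hu : u.1 = 0) : w.support.length ≤ M + 1 := by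
  cases w with
  | nil => simp
  | cons hadj w =>
    rw [SimpleGraph.Walk.cons_isPath_iff] at hw
    have := path_le hLM hL w hw.1 (fun x hx h => hw.2 (by
      have : x = u := Subtype.ext (by rw [h, hu])
      rwa [← this]))
    rw [SimpleGraph.Walk.support_cons, List.length_cons]
    omega

theorem deg_zero {L M : ℕ} (hLM : L ≤ M) (hL : 1 ≤ L) (x : VV L M) (hx : x.1 = 0) :
    ((TG L M).neighborSet x).ncard ≠ 2 := by
  have hsub : (({vx L M 1 (by omega), vx L M (-1) (by omega), vx L M (L + 1) (by omega)} :
      Finset (VV L M)) : Set (VV L M)) ⊆ (TG L M).neighborSet x := by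
    intro y hy
    rw [Finset.mem_coe, mem_insert, mem_insert, mem_singleton] at hy
    rw [SimpleGraph.mem_neighborSet, adj_iff]
    rcases hy with rfl | rfl | rfl
    · exact Or.inl ⟨by omega, by simp only [vx]; omega, Or.inl (by simp only [vx]; omega)⟩
    · exact Or.inl ⟨by omega, by simp only [vx]; omega, Or.inr (by simp only [vx]; omega)⟩
    · exact Or.inr (Or.inl ⟨hx, rfl⟩)
  have h1 := Set.ncard_le_ncard hsub (Set.toFinite _)
  rw [Set.ncard_coe_finset] at h1
  have h2 : ({vx L M 1 (by omega), vx L M (-1) (by omega), vx L M (L + 1) (by omega)} :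
      Finset (VV L M)).card = 3 := by
    rw [card_eq_three]
    refine ⟨_, _, _, ?_, ?_, ?_, rfl⟩ <;>
    · intro h
      have := congrArg Subtype.val h
      simp only [vx] at this
      omega
  omega

theorem isthmus_le {L M : ℕ} (hLM : L ≤ M) (hL : 1 ≤ L) {u v : VV L M} (w : (TG L M).Walk u v)
    (hw : IsIsthmus (TG L M) w) : w.support.length ≤ M + 1 := by
  obtain ⟨h1, -, -, h4⟩ := hw
  by_cases h0 : ∀ x ∈ w.support, x.1 ≠ 0
  · exact (path_le hLM hL w h1 h0).trans (Nat.le_succ _)
  · push Not at h0
    obtain ⟨x, hx, hx0⟩ := h0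
    by_cases hxu : x = u
    · subst hxu
      exact start_le hLM hL w h1 hx0
    · by_cases hxv : x = v
      · subst hxv
        have := start_le hLM hL w.reverse h1.reverse hx0
        rwa [SimpleGraph.Walk.support_reverse, List.length_reverse] at this
      · exact absurd (h4 x hx hxu hxv) (deg_zero hLM hL x hx0)

end Pool.Agent.R146.Peb
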