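import Pool.Agent.R146.Peb.Core
import Pool.Agent.R146.Peb.Tree

/-! Pebble motion: the lower bound for the reversal on the tree `TG L M`. -/

set_option autoImplicit false

namespace Pool.Agent.R146.Peb

open scoped Classical
open Finset

section general

variable {V : Type*} {n : ℕ} {G : SimpleGraph V}

theorem move_apply {f f' : V → Fin (n + 1)} {u v : V} (huv : u ≠ v)
    (h : f' = Function.update (Function.update f u 0) v (f u)) (w : V) :
    f' w = if w = v then f u else if w = u then 0 else f w := by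
  rw [h]
  by_cases h1 : w = v
  · subst h1; simp
  · rw [Function.update_of_ne h1, if_neg h1]
    by_cases h2 : w = u
    · subst h2; simp
    · rw [Function.update_of_ne h2, if_neg h2]

theorem config_move {f f' : V → Fin (n + 1)} (hf : IsConfig f) (h : Move G f f') :
    IsConfig f' := by
  obtain ⟨u, v, hadj, hu, hv, hf'⟩ := h
  have happ := move_apply hadj.ne hf'
  intro i hi
  obtain ⟨w, hw, huniq⟩ := hf i hi
  by_cases hwu : w = u
  · subst hwu
    refine ⟨v, ?_, ?_⟩
    · show f' v = i
      rw [happ, if_pos rfl]; exact hw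
    · intro z hz
      have hz' : f' z = i := hz
      rw [happ] at hz'
      by_contra hzv
      rw [if_neg hzv] at hz'
      by_cases hzw : z = w
      · rw [if_pos hzw] at hz'; exact hi hz'.symm
      · rw [if_neg hzw] at hz'
        exact hzw (huniq z hz')
  · have hwv : w ≠ v := by
      rintro rfl
      exact hi (hw.symm.trans hv)
    refine ⟨w, ?_, ?_⟩
    · show f' w = i
      rw [happ, if_neg hwv, if_neg hwu]; exact hw
    · intro z hz
      have hz' : f' z = i := hz
      rw [happ] at hz'
      by_cases hzv : z = v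
      · rw [if_pos hzv] at hz'
        exact absurd (huniq u hz').symm hwu
      · rw [if_neg hzv] at hz'
        by_cases hzu : z = u
        · rw [if_pos hzu] at hz'; exact absurd hz'.symm hi
        · rw [if_neg hzu] at hz'
          exact huniq z hz'

/-- the position of the pebble `i` (as an element of `Fin n`) -/
noncomputable def pos [Nonempty V] (f : V → Fin (n + 1)) (i : Fin n) : V :=
  Classical.epsilon fun v => f v = i.succ

theorem pos_spec [Nonempty V] {f : V → Fin (n + 1)} (hf : IsConfig f) (i : Fin n) :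
    f (pos f i) = i.succ := by
  obtain ⟨v, hv, -⟩ := hf i.succ (Fin.succ_ne_zero i)
  exact Classical.epsilon_spec (p := fun v => f v = i.succ) ⟨v, hv⟩

theorem pos_eq [Nonempty V] {f : V → Fin (n + 1)} (hf : IsConfig f) {i : Fin n} {v : V}
    (hv : f v = i.succ) : pos f i = v :=
  (hf i.succ (Fin.succ_ne_zero i)).unique (pos_spec hf i) hv

theorem pos_inj [Nonempty V] {f : V → Fin (n + 1)} (hf : IsConfig f) :
    Function.Injective (pos f) := by
  intro i j hij
  have h1 := pos_spec hf i
  rw [hij, pos_spec hf j] at h1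
  exact (Fin.succ_injective _ h1).symm

theorem pos_move [Nonempty V] {f f' : V → Fin (n + 1)} (hf : IsConfig f) (h : Move G f f') :
    ∃ k : Fin n, (∀ j, j ≠ k → pos f' j = pos f j) ∧ G.Adj (pos f k) (pos f' k) := by
  have hf'c := config_move hf h
  obtain ⟨u, v, hadj, hu, hv, hf'⟩ := h
  have happ := move_apply hadj.ne hf'
  obtain ⟨k, hk⟩ := Fin.exists_succ_eq.2 hu
  refine ⟨k, fun j hj => ?_, ?_⟩
  · refine pos_eq hf'c ?_
    have h1 := pos_spec hf j
    have h2 : pos f j ≠ v := by
      intro h; rw [h, hv] at h1; exact Fin.succ_ne_zero _ h1.symm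
    have h3 : pos f j ≠ u := by
      intro h; rw [h, ← hk] at h1; exact hj (Fin.succ_injective _ h1).symm
    rw [happ, if_neg h2, if_neg h3, h1]
  · have h1 : pos f k = u := pos_eq hf hk.symm
    have h2 : pos f' k = v := pos_eq hf'c (by rw [happ, if_pos rfl]; exact hk.symm)
    rw [h1, h2]
    exact hadj

end general

/-- the signed distance to the branch vertex -/
def yz (L : ℕ) (x : ℤ) : ℤ := if x = L + 1 then 0 else x

theorem yz_adj {L M : ℕ} (a b : VV L M) (h : (TG L M).Adj a b) :
    |yz L b.1 - yz L a.1| ≤ 1 := by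
  rw [adj_iff] at h
  rw [abs_le]
  rcases h with ⟨h1, h2, h3⟩ | ⟨h1, h2⟩ | ⟨h1, h2⟩ <;>
  · simp only [yz]
    split_ifs <;> constructor <;> omega

theorem yz_inj {L M : ℕ} (a b : VV L M) (hab : a ≠ b) (h : yz L a.1 = yz L b.1) :
    yz L a.1 = 0 := by
  have hab' : a.1 ≠ b.1 := fun h => hab (Subtype.ext h)
  simp only [yz] at h ⊢
  split_ifs at h ⊢ <;> omega

theorem cap {L M n : ℕ} (p : Fin n → VV L M) (hp : Function.Injective p) (h : ℕ) (hh : 1 ≤ h) :
    (univ.filter fun i => |yz L (p i).1| < (h : ℤ)).card ≤ 2 * h := by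
  have h1 : (univ.filter fun i => |yz L (p i).1| < (h : ℤ)).card =
      ((univ.filter fun i => |yz L (p i).1| < (h : ℤ)).image (fun i => (p i).1)).card :=
    (card_image_of_injective _ (Subtype.val_injective.comp hp)).symm
  rw [h1]
  have hsub : ((univ.filter fun i => |yz L (p i).1| < (h : ℤ)).image (fun i => (p i).1)) ⊆
      insert ((L : ℤ) + 1) (Finset.Icc (-((h : ℤ) - 1)) ((h : ℤ) - 1)) := by
    intro z hz
    rw [mem_image] at hz
    obtain ⟨i, hi, rfl⟩ := hz
    have h2 := (mem_filter.1 hi).2
    rw [mem_insert, Finset.mem_Icc]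
    by_cases h3 : (p i).1 = L + 1
    · exact Or.inl h3
    · right
      rw [yz, if_neg h3, abs_lt] at h2
      constructor <;> omega
  refine (card_le_card hsub).trans ((card_insert_le _ _).trans ?_)
  rw [Int.card_Icc]
  omega

theorem zero_crossing {m : ℕ} (d : ℕ → ℤ) (h0 : 0 < d 0) (hm : d m < 0)
    (hstep : ∀ t < m, |d (t + 1) - d t| ≤ 1) : ∃ t ≤ m, d t = 0 := by
  have hex : ∃ t, d t ≤ 0 := ⟨m, hm.le⟩
  have h1 := Nat.find_spec hex
  have h2 : Nat.find hex ≤ m := Nat.find_min' hex hm.le
  refine ⟨Nat.find hex, h2, ?_⟩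
  obtain ⟨t, ht⟩ : ∃ t, Nat.find hex = t + 1 := by
    cases h3 : Nat.find hex with
    | zero => rw [h3] at h1; omega
    | succ t => exact ⟨t, rfl⟩
  have h4 := Nat.find_min hex (show t < Nat.find hex by omega)
  have h5 := hstep t (by omega)
  rw [ht] at h1 ⊢
  rw [abs_le] at h5
  omega

/-- The lower bound: every sequence of moves which reverses the order of the pebbles. -/
theorem lower {L M n m : ℕ} (hn : 2 ≤ n) (f g : VV L M → Fin (n + 1)) (hf : IsConfig f)
    (hg : IsConfig g) (hnL : n ≤ L)
    (hf0 : ∀ i : Fin n, ∀ v : VV L M, v.1 = (i : ℤ) + 1 → f v = i.succ)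
    (hg0 : ∀ i : Fin n, ∀ v : VV L M, v.1 = (n : ℤ) - i → g v = i.succ)
    (hs : Solves (TG L M) m f g) : (n : ℝ) ^ 2 / 8 * Real.log (n / 2) ≤ m := by
  obtain ⟨c, hc0, hcm, hc⟩ := hs
  have : Nonempty (VV L M) := ⟨vx L M 0 (by omega)⟩
  have hconf : ∀ t ≤ m, IsConfig (c t) := by
    intro t
    induction t with
    | zero => intro _; rw [hc0]; exact hf
    | succ t ih => intro ht; exact config_move (ih (by omega)) (hc t (by omega))
  set y : ℕ → Fin n → ℤ := fun t i => yz L (pos (c t) i).1 with hy
  have hstep : ∀ t < m, ∃ i, (∀ j, j ≠ i → y (t + 1) j = y t j) ∧ |y (t + 1) i - y t i| ≤ 1 := by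
    intro t ht
    obtain ⟨k, hk1, hk2⟩ := pos_move (hconf t ht.le) (hc t ht)
    refine ⟨k, fun j hj => ?_, yz_adj _ _ hk2⟩
    simp only [hy]
    rw [hk1 j hj]
  have hy0 : ∀ i : Fin n, y 0 i = (i : ℤ) + 1 := by
    intro i
    have hi := i.2
    have h1 : pos (c 0) i = vx L M ((i : ℤ) + 1) (by omega) := by
      refine pos_eq (hconf 0 (Nat.zero_le _)) ?_
      rw [hc0]
      exact hf0 i _ rfl
    simp only [hy]
    rw [h1]
    simp only [vx, yz]
    rw [if_neg (by omega)]
  have hym : ∀ i : Fin n, y m i = (n : ℤ) - i := by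
    intro i
    have hi := i.2
    have h1 : pos (c m) i = vx L M ((n : ℤ) - i) (by omega) := by
      refine pos_eq (hconf m le_rfl) ?_
      rw [hcm]
      exact hg0 i _ rfl
    simp only [hy]
    rw [h1]
    simp only [vx, yz]
    rw [if_neg (by omega)]
  refine core y hn hstep ?_ ?_ hy0
  · intro h hh t ht
    exact cap (pos (c t)) (pos_inj (hconf t ht)) h hh
  · intro i j hij
    have hij' : (i : ℕ) < (j : ℕ) := hij
    obtain ⟨t, ht, hd⟩ := zero_crossing (m := m) (fun t => y t j - y t i)
      (by simp only [hy0]; omega) (by simp only [hym]; omega) (by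
        intro t ht
        obtain ⟨k, hk1, hk2⟩ := hstep t ht
        rw [abs_le] at hk2 ⊢
        by_cases hjk : j = k
        · subst hjk
          rw [hk1 i hij.ne]
          constructor <;> linarith
        · by_cases hik : i = k
          · subst hik
            rw [hk1 j hjk]
            constructor <;> linarith
          · rw [hk1 i hik, hk1 j hjk]
            constructor <;> linarith)
    have hd' : y t i = y t j := by
      have : y t j - y t i = 0 := hd
      omega
    have hne : pos (c t) i ≠ pos (c t) j := fun h => hij.ne (pos_inj (hconf t ht) h)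
    have h0 := yz_inj _ _ hne hd'
    exact ⟨t, ht, h0, hd' ▸ h0⟩

end Pool.Agent.R146.Peb
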