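import Pool.Agent.R146.Peb.Lower

/-! Pebble motion on the tree `TG L M`: every two placements of `n ≤ L` pebbles on `1, …, n` can be
transformed into each other. -/

set_option autoImplicit false

namespace Pool.Agent.R146.Peb

open scoped Classical
open Finset

section

variable {L M n : ℕ}

/-- the configuration with the pebble `i` at the vertex `x i` -/
noncomputable def F (L M : ℕ) {n : ℕ} (x : Fin n → ℤ) (v : VV L M) : Fin (n + 1) :=
  if h : ∃ i, x i = v.1 then h.choose.succ else 0

theorem F_eq {x : Fin n → ℤ} (hx : Function.Injective x) {v : VV L M} {i : Fin n}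
    (h : x i = v.1) : F L M x v = i.succ := by
  have hex : ∃ i, x i = v.1 := ⟨i, h⟩
  rw [F, dif_pos hex]
  congr 1
  exact hx (hex.choose_spec.trans h.symm)

theorem F_zero {x : Fin n → ℤ} {v : VV L M} (h : ∀ i, x i ≠ v.1) : F L M x v = 0 := by
  rw [F, dif_neg]
  push Not
  exact h

/-- valid placements -/
def Valid (L M : ℕ) {n : ℕ} (x : Fin n → ℤ) : Prop :=
  Function.Injective x ∧ ∀ i, -(M : ℤ) ≤ x i ∧ x i ≤ L + 1

theorem F_config {x : Fin n → ℤ} (hx : Valid L M x) : IsConfig (F L M x) := by
  intro i hi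
  obtain ⟨k, rfl⟩ := Fin.exists_succ_eq.2 hi
  refine ⟨vx L M (x k) (hx.2 k), F_eq hx.1 rfl, ?_⟩
  intro v hv
  by_cases h : ∃ j, x j = v.1
  · obtain ⟨j, hj⟩ := h
    have hv' : F L M x v = k.succ := hv
    rw [F_eq hx.1 hj] at hv'
    have := Fin.succ_injective _ hv'
    subst this
    exact Subtype.ext hj.symm
  · push Not at h
    have hv' : F L M x v = k.succ := hv
    rw [F_zero h] at hv'
    exact absurd hv'.symm (Fin.succ_ne_zero _)

/-- a move in terms of the positions -/
def MoveZ (L M : ℕ) {n : ℕ} (x x' : Fin n → ℤ) : Prop :=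
  Valid L M x ∧ Valid L M x' ∧ ∃ i v, AdjZ L (x i) v ∧ (∀ j, x j ≠ v) ∧ x' = Function.update x i v

theorem moveZ_symm {x x' : Fin n → ℤ} (h : MoveZ L M x x') : MoveZ L M x' x := by
  obtain ⟨h1, h2, i, v, h3, h4, h5⟩ := h
  have hvi : x' i = v := by rw [h5]; simp
  refine ⟨h2, h1, i, x i, ?_, ?_, ?_⟩
  · rw [hvi]
    rcases h3 with ⟨a, b, c⟩ | ⟨a, b⟩ | ⟨a, b⟩
    · exact Or.inl ⟨b, a, c.symm⟩
    · exact Or.inr (Or.inr ⟨b, a⟩)
    · exact Or.inr (Or.inl ⟨b, a⟩)
  · intro j
    by_cases hj : j = i
    · subst hj; rw [hvi]; exact (h4 j).symm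
    · rw [h5, Function.update_of_ne hj]
      exact fun h => hj (h1.1 h)
  · rw [h5]; simp

theorem move_of_moveZ {x x' : Fin n → ℤ} (h : MoveZ L M x x') :
    Move (TG L M) (F L M x) (F L M x') := by
  obtain ⟨h1, h2, i, v, h3, h4, h5⟩ := h
  have hvi : x' i = v := by rw [h5]; simp
  have hv := h2.2 i
  rw [hvi] at hv
  have hne : x i ≠ v := h4 i
  refine ⟨vx L M (x i) (h1.2 i), vx L M v hv, h3, ?_, ?_, ?_⟩
  · rw [F_eq h1.1 (i := i) rfl]
    exact Fin.succ_ne_zero _
  · exact F_zero h4
  · funext w
    have huv : vx L M (x i) (h1.2 i) ≠ vx L M v hv := fun h => hne (congrArg Subtype.val h)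
    rw [move_apply huv rfl w]
    by_cases hw : w = vx L M v hv
    · rw [if_pos hw, F_eq h1.1 (i := i) rfl]
      exact F_eq h2.1 (by rw [hvi, hw]; rfl)
    · rw [if_neg hw]
      by_cases hw2 : w = vx L M (x i) (h1.2 i)
      · rw [if_pos hw2]
        refine F_zero fun j => ?_
        rw [hw2]
        show x' j ≠ x i
        by_cases hj : j = i
        · subst hj; rw [hvi]; exact hne.symm
        · rw [h5, Function.update_of_ne hj]
          exact fun h => hj (h1.1 h)
      · rw [if_neg hw2]
        by_cases hex : ∃ j, x j = w.1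
        · obtain ⟨j, hj⟩ := hex
          have hji : j ≠ i := by
            rintro rfl
            exact hw2 (Subtype.ext hj.symm)
          rw [F_eq h1.1 hj]
          exact F_eq h2.1 (by rw [h5, Function.update_of_ne hji, hj])
        · push Not at hex
          rw [F_zero hex]
          refine F_zero fun j => ?_
          by_cases hj : j = i
          · subst hj
            rw [hvi]
            exact fun h => hw (Subtype.ext h.symm)
          · rw [h5, Function.update_of_ne hj]
            exact hex j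

/-- reachability -/
def R (L M : ℕ) {n : ℕ} (x x' : Fin n → ℤ) : Prop := Relation.ReflTransGen (MoveZ L M) x x'

theorem R.symm {x x' : Fin n → ℤ} (h : R L M x x') : R L M x' x := by
  induction h with
  | refl => exact Relation.ReflTransGen.refl
  | tail _ h2 ih => exact Relation.ReflTransGen.head (moveZ_symm h2) ih

theorem solves_of_R {x x' : Fin n → ℤ} (h : R L M x x') :
    ∃ m, Solves (TG L M) m (F L M x) (F L M x') := by
  induction h with
  | refl => exact ⟨0, fun _ => F L M x, rfl, rfl, fun t ht => absurd ht (Nat.not_lt_zero t)⟩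
  | @tail y z _ hyz ih =>
    obtain ⟨m, c, h0, hm, hc⟩ := ih
    refine ⟨m + 1, fun t => if t ≤ m then c t else F L M z, ?_, ?_, ?_⟩
    · simp [h0]
    · simp
    · intro t ht
      show Move _ (if t ≤ m then c t else F L M z) (if t + 1 ≤ m then c (t + 1) else F L M z)
      by_cases h1 : t + 1 ≤ m
      · rw [if_pos (by omega), if_pos h1]
        exact hc t (by omega)
      · have h2 : t = m := by omega
        subst h2
        rw [if_pos le_rfl, if_neg h1, hm]
        exact move_of_moveZ hyz

theorem valid_update {x : Fin n → ℤ} (hx : Valid L M x) (i : Fin n) (v : ℤ)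
    (hv : -(M : ℤ) ≤ v ∧ v ≤ L + 1) (hf : ∀ j, j ≠ i → x j ≠ v) :
    Valid L M (Function.update x i v) := by
  refine ⟨?_, ?_⟩
  · intro a b hab
    by_cases ha : a = i
    · by_cases hb : b = i
      · rw [ha, hb]
      · subst ha
        rw [Function.update_self, Function.update_of_ne hb] at hab
        exact absurd hab.symm (hf b hb)
    · by_cases hb : b = i
      · subst hb
        rw [Function.update_self, Function.update_of_ne ha] at hab
        exact absurd hab (hf a ha)
      · rw [Function.update_of_ne ha, Function.update_of_ne hb] at hab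
        exact hx.1 hab
  · intro j
    by_cases hj : j = i
    · subst hj; rw [Function.update_self]; exact hv
    · rw [Function.update_of_ne hj]; exact hx.2 j

/-- one move -/
theorem R_one {x : Fin n → ℤ} (hx : Valid L M x) (i : Fin n) (v : ℤ)
    (hv : -(M : ℤ) ≤ v ∧ v ≤ L + 1) (ha : AdjZ L (x i) v) (hf : ∀ j, x j ≠ v) :
    R L M x (Function.update x i v) :=
  Relation.ReflTransGen.single ⟨hx, valid_update hx i v hv (fun j _ => hf j), i, v, ha, hf, rfl⟩

/-- the pebble `i` slides up -/
theorem slide_up (i : Fin n) : ∀ (k : ℕ) (x : Fin n → ℤ) (b : ℤ), Valid L M x → x i + k = b →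
    b ≤ L → (∀ j, j ≠ i → ¬ (x i ≤ x j ∧ x j ≤ b)) → R L M x (Function.update x i b) := by
  intro k
  induction k with
  | zero =>
    intro x b _ hb _ _
    have : b = x i := by push_cast at hb; omega
    rw [this, Function.update_eq_self]
    exact Relation.ReflTransGen.refl
  | succ k ih =>
    intro x b hx hb hbL hfree
    have hb' : x i + k + 1 = b := by push_cast at hb; omega
    have hxi := hx.2 i
    have h1 : R L M x (Function.update x i (x i + 1)) := by
      refine R_one hx i _ ⟨by omega, by omega⟩ (Or.inl ⟨by omega, by omega, Or.inl rfl⟩) ?_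
      intro j hj
      by_cases hji : j = i
      · subst hji; omega
      · exact hfree j hji ⟨by omega, by omega⟩
    have hv : Valid L M (Function.update x i (x i + 1)) := by
      refine valid_update hx i _ ⟨by omega, by omega⟩ ?_
      intro j hji hj
      exact hfree j hji ⟨by omega, by omega⟩
    have h2 := ih (Function.update x i (x i + 1)) b hv (by rw [Function.update_self]; omega) hbL
      (by
        intro j hji
        rw [Function.update_self, Function.update_of_ne hji]
        intro h
        exact hfree j hji ⟨by omega, h.2⟩)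
    rw [Function.update_idem] at h2
    exact h1.trans h2

/-- the pebble `i` slides down -/
theorem slide_down (i : Fin n) (x : Fin n → ℤ) (b : ℤ) (hx : Valid L M x) (hb : b ≤ x i)
    (hM : -(M : ℤ) ≤ b) (hL : x i ≤ L) (hfree : ∀ j, j ≠ i → ¬ (b ≤ x j ∧ x j ≤ x i)) :
    R L M x (Function.update x i b) := by
  have hv : Valid L M (Function.update x i b) := by
    refine valid_update hx i _ ⟨by omega, by omega⟩ ?_
    intro j hji hj
    exact hfree j hji ⟨by omega, by omega⟩
  have h := slide_up (L := L) (M := M) i (x i - b).toNat (Function.update x i b) (x i) hv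
    (by rw [Function.update_self]; omega) hL (by
      intro j hji
      rw [Function.update_self, Function.update_of_ne hji]
      exact hfree j hji)
  rw [Function.update_idem, Function.update_eq_self] at h
  exact h.symm

/-- positions in phase one -/
def EE (K j a : ℤ) : ℤ := if a < j then a - (K + 1) else a + 1

theorem EE_inj (K j : ℤ) (hj : j ≤ K) {a b : ℤ} (ha : 0 ≤ a) (hb : 0 ≤ b)
    (h : EE K j a = EE K j b) : a = b := by
  simp only [EE] at h
  split_ifs at h <;> omega

/-- the placement -/
def plc (K j : ℤ) (σ : Equiv.Perm (Fin n)) : Fin n → ℤ := fun i => EE K j ((σ i : ℕ) : ℤ)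

theorem plc_valid (hnL : n ≤ L) (hLM : L ≤ M) (K j : ℤ) (hj0 : 0 ≤ j) (hj : j ≤ K) (hK : K + 1 ≤ n)
    (σ : Equiv.Perm (Fin n)) : Valid L M (plc K j σ) := by
  refine ⟨?_, ?_⟩
  · intro a b h
    have h1 := EE_inj K j hj (by positivity) (by positivity) h
    exact σ.injective (Fin.ext (by exact_mod_cast h1))
  · intro i
    have := (σ i).2
    simp only [plc, EE]
    split_ifs <;> constructor <;> omega

theorem plc_step (hnL : n ≤ L) (hLM : L ≤ M) (K : ℤ) (j : ℕ) (hj : (j : ℤ) + 1 ≤ K)
    (hK : K + 1 ≤ n) (σ : Equiv.Perm (Fin n)) :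
    R L M (plc K j σ) (plc K (j + 1 : ℤ) σ) := by
  have hjn : j < n := by omega
  set i : Fin n := σ.symm ⟨j, hjn⟩ with hi
  have hσi : σ i = ⟨j, hjn⟩ := by rw [hi, Equiv.apply_symm_apply]
  have hxi : plc K j σ i = j + 1 := by
    simp only [plc, hσi, EE]
    rw [if_neg (by omega)]
  have hne : ∀ l, l ≠ i → ((σ l : ℕ) : ℤ) ≠ j := by
    intro l hl h
    apply hl
    apply σ.injective
    rw [hσi]
    exact Fin.ext (by exact_mod_cast h)
  have h := slide_down (L := L) (M := M) i (plc K j σ) (j - (K + 1))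
    (plc_valid hnL hLM K j (by omega) (by omega) hK σ) (by rw [hxi]; omega) (by omega)
    (by rw [hxi]; omega) (by
      intro l hl
      rw [hxi]
      have h1 := hne l hl
      simp only [plc, EE]
      split_ifs <;> omega)
  have heq : Function.update (plc K j σ) i ((j : ℤ) - (K + 1)) = plc K (j + 1 : ℤ) σ := by
    funext l
    by_cases hl : l = i
    · subst hl
      rw [Function.update_self]
      simp only [plc, hσi, EE]
      rw [if_pos (by omega)]
    · rw [Function.update_of_ne hl]
      have h1 := hne l hl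
      simp only [plc, EE]
      split_ifs <;> omega
  rw [heq] at h
  exact h

theorem plc_phase (hnL : n ≤ L) (hLM : L ≤ M) (K : ℤ) (hK : K + 1 ≤ n) (σ : Equiv.Perm (Fin n)) :
    ∀ j : ℕ, (j : ℤ) ≤ K → R L M (plc K 0 σ) (plc K j σ) := by
  intro j
  induction j with
  | zero => intro _; exact Relation.ReflTransGen.refl
  | succ j ih =>
    intro hj
    push_cast at hj ⊢
    exact (ih (by omega)).trans (plc_step hnL hLM K j hj hK σ)

/-- the exchange of the two pebbles next to each other -/
theorem plc_swap (hnL : n ≤ L) (hLM : L ≤ M) (K : ℕ) (hK : K + 1 < n) (σ : Equiv.Perm (Fin n)) :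
    R L M (plc K K σ) (plc K K
      (Equiv.swap (⟨K, by omega⟩ : Fin n) ⟨K + 1, hK⟩ * σ)) := by
  have hK0 : K < n := by omega
  set i0 : Fin n := σ.symm ⟨K, hK0⟩ with hi0
  set i1 : Fin n := σ.symm ⟨K + 1, hK⟩ with hi1
  have h0 : σ i0 = ⟨K, hK0⟩ := by rw [hi0, Equiv.apply_symm_apply]
  have h1 : σ i1 = ⟨K + 1, hK⟩ := by rw [hi1, Equiv.apply_symm_apply]
  have h01 : i0 ≠ i1 := by
    intro h
    rw [h, h1] at h0
    have := congrArg Fin.val h0
    simp at this
  have hne0 : ∀ l, l ≠ i0 → ((σ l : ℕ) : ℤ) ≠ K := by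
    intro l hl h
    apply hl
    apply σ.injective
    rw [h0]
    exact Fin.ext (by exact_mod_cast h)
  have hne1 : ∀ l, l ≠ i1 → ((σ l : ℕ) : ℤ) ≠ K + 1 := by
    intro l hl h
    apply hl
    apply σ.injective
    rw [h1]
    exact Fin.ext (by exact_mod_cast h)
  set x0 : Fin n → ℤ := plc K K σ with hx0
  have e0 : x0 i0 = K + 1 := by
    simp only [hx0, plc, h0, EE]
    rw [if_neg (by omega)]
  have e1 : x0 i1 = K + 2 := by
    simp only [hx0, plc, h1, EE]
    rw [if_neg (by push_cast; omega)]
    push_cast; ring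
  have el : ∀ l, l ≠ i0 → l ≠ i1 → x0 l ≤ -2 ∨ (K + 3 ≤ x0 l ∧ x0 l ≤ n) := by
    intro l hl0 hl1
    have a1 := hne0 l hl0
    have a2 := hne1 l hl1
    have a3 := (σ l).2
    simp only [hx0, plc, EE]
    split_ifs <;> omega
  have v0 : Valid L M x0 := plc_valid hnL hLM K K (by omega) le_rfl (by omega) σ
  -- step A
  have rA := slide_down (L := L) (M := M) i0 x0 0 v0 (by rw [e0]; omega) (by omega)
    (by rw [e0]; omega) (by
      intro j hj
      rw [e0]
      by_cases hj1 : j = i1
      · subst hj1; rw [e1]; omega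
      · have := el j hj hj1; omega)
  set x1 : Fin n → ℤ := Function.update x0 i0 0 with hx1
  have v1 : Valid L M x1 := valid_update v0 i0 0 ⟨by omega, by omega⟩ (by
    intro j hj
    by_cases hj1 : j = i1
    · subst hj1; rw [e1]; omega
    · have := el j hj hj1; omega)
  have x1_0 : x1 i0 = 0 := by rw [hx1, Function.update_self]
  have x1_o : ∀ j, j ≠ i0 → x1 j = x0 j := fun j hj => by rw [hx1, Function.update_of_ne hj]
  -- step B
  have fB : ∀ j, x1 j ≠ (L : ℤ) + 1 := by
    intro j
    by_cases hj : j = i0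
    · subst hj; rw [x1_0]; omega
    · rw [x1_o j hj]
      by_cases hj1 : j = i1
      · subst hj1; rw [e1]; omega
      · have := el j hj hj1; omega
  have rB := R_one v1 i0 ((L : ℤ) + 1) ⟨by omega, by omega⟩ (Or.inr (Or.inl ⟨x1_0, rfl⟩)) fB
  have v2 := valid_update v1 i0 ((L : ℤ) + 1) ⟨by omega, by omega⟩ (fun j _ => fB j)
  have hx2e : Function.update x1 i0 ((L : ℤ) + 1) = Function.update x0 i0 ((L : ℤ) + 1) := by
    rw [hx1, Function.update_idem]
  rw [hx2e] at rB v2
  set x2 : Fin n → ℤ := Function.update x0 i0 ((L : ℤ) + 1) with hx2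
  have x2_0 : x2 i0 = (L : ℤ) + 1 := by rw [hx2, Function.update_self]
  have x2_o : ∀ j, j ≠ i0 → x2 j = x0 j := fun j hj => by rw [hx2, Function.update_of_ne hj]
  -- step C
  have e21 : x2 i1 = K + 2 := by rw [x2_o i1 h01.symm, e1]
  have rC := slide_down (L := L) (M := M) i1 x2 (-1) v2 (by rw [e21]; omega) (by omega)
    (by rw [e21]; omega) (by
      intro j hj
      rw [e21]
      by_cases hj0 : j = i0
      · subst hj0; rw [x2_0]; omega
      · rw [x2_o j hj0]
        have := el j hj0 hj; omega)
  set x3 : Fin n → ℤ := Function.update x2 i1 (-1) with hx3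
  have x3_1 : x3 i1 = -1 := by rw [hx3, Function.update_self]
  have x3_0 : x3 i0 = (L : ℤ) + 1 := by rw [hx3, Function.update_of_ne h01, x2_0]
  have x3_o : ∀ j, j ≠ i0 → j ≠ i1 → x3 j = x0 j := fun j hj hj1 => by
    rw [hx3, Function.update_of_ne hj1, x2_o j hj]
  have v3 : Valid L M x3 := valid_update v2 i1 (-1) ⟨by omega, by omega⟩ (by
    intro j hj
    by_cases hj0 : j = i0
    · subst hj0; rw [x2_0]; omega
    · rw [x2_o j hj0]
      have := el j hj0 hj; omega)
  -- step D
  have fD : ∀ j, x3 j ≠ 0 := by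
    intro j
    by_cases hj : j = i0
    · subst hj; rw [x3_0]; omega
    · by_cases hj1 : j = i1
      · subst hj1; rw [x3_1]; omega
      · rw [x3_o j hj hj1]
        have := el j hj hj1; omega
  have rD := R_one v3 i0 0 ⟨by omega, by omega⟩ (Or.inr (Or.inr ⟨x3_0, rfl⟩)) fD
  have v4 := valid_update v3 i0 0 ⟨by omega, by omega⟩ (fun j _ => fD j)
  set x4 : Fin n → ℤ := Function.update x3 i0 0 with hx4
  have x4_0 : x4 i0 = 0 := by rw [hx4, Function.update_self]
  have x4_1 : x4 i1 = -1 := by rw [hx4, Function.update_of_ne h01.symm, x3_1]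
  have x4_o : ∀ j, j ≠ i0 → j ≠ i1 → x4 j = x0 j := fun j hj hj1 => by
    rw [hx4, Function.update_of_ne hj, x3_o j hj hj1]
  -- step E
  have rE := slide_up (L := L) (M := M) i0 (K + 2) x4 (K + 2) v4 (by rw [x4_0]; push_cast; omega)
    (by omega) (by
      intro j hj
      rw [x4_0]
      by_cases hj1 : j = i1
      · subst hj1; rw [x4_1]; omega
      · rw [x4_o j hj hj1]
        have := el j hj hj1; omega)
  set x5 : Fin n → ℤ := Function.update x4 i0 ((K : ℤ) + 2) with hx5
  have x5_0 : x5 i0 = K + 2 := by rw [hx5, Function.update_self]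
  have x5_1 : x5 i1 = -1 := by rw [hx5, Function.update_of_ne h01.symm, x4_1]
  have x5_o : ∀ j, j ≠ i0 → j ≠ i1 → x5 j = x0 j := fun j hj hj1 => by
    rw [hx5, Function.update_of_ne hj, x4_o j hj hj1]
  have v5 : Valid L M x5 := valid_update v4 i0 _ ⟨by omega, by omega⟩ (by
    intro j hj
    by_cases hj1 : j = i1
    · subst hj1; rw [x4_1]; omega
    · rw [x4_o j hj hj1]
      have := el j hj hj1; omega)
  -- step F
  have rF := slide_up (L := L) (M := M) i1 (K + 2) x5 (K + 1) v5 (by rw [x5_1]; push_cast; omega)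
    (by omega) (by
      intro j hj
      rw [x5_1]
      by_cases hj0 : j = i0
      · subst hj0; rw [x5_0]; omega
      · rw [x5_o j hj0 hj]
        have := el j hj0 hj; omega)
  have hfin : Function.update x5 i1 ((K : ℤ) + 1) = plc K K
      (Equiv.swap (⟨K, by omega⟩ : Fin n) ⟨K + 1, hK⟩ * σ) := by
    funext j
    by_cases hj1 : j = i1
    · subst hj1
      rw [Function.update_self]
      simp only [plc, Equiv.Perm.mul_apply, h1, Equiv.swap_apply_right, EE]
      rw [if_neg (by omega)]
    · rw [Function.update_of_ne hj1]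
      by_cases hj0 : j = i0
      · subst hj0
        rw [x5_0]
        simp only [plc, Equiv.Perm.mul_apply, h0, Equiv.swap_apply_left, EE]
        rw [if_neg (by push_cast; omega)]
        push_cast; ring
      · rw [x5_o j hj0 hj1]
        have a1 : σ j ≠ ⟨K, hK0⟩ := fun h => hj0 (σ.injective (h.trans h0.symm))
        have a2 : σ j ≠ ⟨K + 1, hK⟩ := fun h => hj1 (σ.injective (h.trans h1.symm))
        simp only [hx0, plc, Equiv.Perm.mul_apply]
        rw [Equiv.swap_apply_of_ne_of_ne a1 a2]
  rw [hfin] at rF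
  exact ((((rA.trans rB).trans rC).trans rD).trans rE).trans rF

theorem plc_zero (K : ℤ) (hK : 0 ≤ K) (σ : Equiv.Perm (Fin n)) : plc K 0 σ = plc 0 0 σ := by
  funext i
  simp only [plc, EE]
  rw [if_neg (by omega), if_neg (by omega)]

theorem plc_exchange (hnL : n ≤ L) (hLM : L ≤ M) (K : ℕ) (hK : K + 1 < n)
    (σ : Equiv.Perm (Fin n)) :
    R L M (plc 0 0 σ) (plc 0 0 (Equiv.swap (⟨K, by omega⟩ : Fin n) ⟨K + 1, hK⟩ * σ)) := by
  have h1 := plc_phase hnL hLM K (by omega) σ K le_rfl
  have h2 := plc_swap hnL hLM K hK σ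
  have h3 := plc_phase hnL hLM K (by omega)
    (Equiv.swap (⟨K, by omega⟩ : Fin n) ⟨K + 1, hK⟩ * σ) K le_rfl
  rw [plc_zero K (by omega)] at h1 h3
  exact (h1.trans h2).trans h3.symm

theorem all_reach (hnL : n ≤ L) (hLM : L ≤ M) (τ σ : Equiv.Perm (Fin n)) :
    R L M (plc 0 0 σ) (plc 0 0 (τ * σ)) := by
  cases n with
  | zero =>
    have : τ * σ = σ := Subsingleton.elim _ _
    rw [this]
    exact Relation.ReflTransGen.refl
  | succ n =>
    have hτ : τ ∈ Submonoid.closure (Set.range fun i : Fin n =>
        Equiv.swap i.castSucc i.succ) := by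
      rw [Equiv.Perm.mclosure_swap_castSucc_succ]
      trivial
    revert σ
    induction hτ using Submonoid.closure_induction with
    | mem x hx =>
      intro σ
      obtain ⟨i, rfl⟩ := hx
      exact plc_exchange hnL hLM i.1 (by have := i.2; omega) σ
    | one => intro σ; rw [one_mul]; exact Relation.ReflTransGen.refl
    | mul a b _ _ ha hb =>
      intro σ
      rw [mul_assoc]
      exact (hb σ).trans (ha _)

end

end Pool.Agent.R146.Peb
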